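import Mathlib

/-!
MP_faa006_lc: integral domains with common division are not singled out, inside the class of
commutative rings with common division, by any set of conditional equations valid in them.
-/

set_option autoImplicit false

namespace Pool.Agent.Results.MP_faa006_lc.NotDefinable

/-- Structures for the signature `0, 1, ⊥, -, +, ·, ÷`. -/
structure CDAlg where
  carrier : Type
  zero : carrier
  one : carrier
  bot : carrier
  neg : carrier → carrier
  add : carrier → carrier → carrier
  mul : carrier → carrier → carrier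
  div : carrier → carrier → carrier

/-- Isomorphism of structures. -/
def Iso (A B : CDAlg) : Prop :=
  ∃ e : A.carrier ≃ B.carrier, e A.zero = B.zero ∧ e A.one = B.one ∧ e A.bot = B.bot ∧
    (∀ x, e (A.neg x) = B.neg (e x)) ∧
    (∀ x y, e (A.add x y) = B.add (e x) (e y)) ∧
    (∀ x y, e (A.mul x y) = B.mul (e x) (e y)) ∧
    (∀ x y, e (A.div x y) = B.div (e x) (e y))

/-- A binary operation extended to `R ∪ {⊥}`, with `⊥ = none` absorptive. -/
def lift2 {R : Type} (f : R → R → Option R) : Option R → Option R → Option R
  | some x, some y => f x y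
  | _, _ => none

open Classical in
/-- Inverse based common division on `R`: `x ÷ y = x · y⁻¹` if `y` is a unit, and `⊥` otherwise. -/
noncomputable def cdiv {R : Type} [CommRing R] (x y : R) : Option R :=
  if IsUnit y then some (x * Ring.inverse y) else none

/-- The enlargement `Enl_⊥(R_÷)` of a commutative ring. -/
noncomputable def Enl (R : Type) [CommRing R] : CDAlg where
  carrier := Option R
  zero := some 0
  one := some 1
  bot := none
  neg := Option.map fun x => -x
  add := lift2 fun x y => some (x + y)
  mul := lift2 fun x y => some (x * y)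
  div := lift2 cdiv

/-- Membership in the class of commutative rings with common division. -/
def IsCR (A : CDAlg) : Prop := ∃ (R : Type) (_ : CommRing R), Iso A (Enl R)

/-- Membership in the class of integral domains with common division. -/
def IsCID (A : CDAlg) : Prop := ∃ (R : Type) (_ : CommRing R), IsDomain R ∧ Iso A (Enl R)

/-- Terms over the signature, with variables indexed by `ℕ`. -/
inductive Term where
  | var : ℕ → Term
  | zero : Term
  | one : Term
  | bot : Term
  | neg : Term → Term
  | add : Term → Term → Term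
  | mul : Term → Term → Term
  | div : Term → Term → Term

/-- Value of a term under an assignment. -/
def Term.eval (A : CDAlg) (v : ℕ → A.carrier) : Term → A.carrier
  | .var n => v n
  | .zero => A.zero
  | .one => A.one
  | .bot => A.bot
  | .neg t => A.neg (t.eval A v)
  | .add s t => A.add (s.eval A v) (t.eval A v)
  | .mul s t => A.mul (s.eval A v) (t.eval A v)
  | .div s t => A.div (s.eval A v) (t.eval A v)

/-- A conditional equation `e₁ ∧ … ∧ eₙ → e`; an equation is a pair of terms. -/
structure CondEq where
  hyps : List (Term × Term)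
  concl : Term × Term

/-- `A ⊨ φ`. -/
def Sat (A : CDAlg) (φ : CondEq) : Prop :=
  ∀ v : ℕ → A.carrier, (∀ p ∈ φ.hyps, p.1.eval A v = p.2.eval A v) →
    φ.concl.1.eval A v = φ.concl.2.eval A v

/-! ### Homomorphisms -/

/-- Homomorphisms of structures. -/
structure IsHom (A B : CDAlg) (e : A.carrier → B.carrier) : Prop where
  zero : e A.zero = B.zero
  one : e A.one = B.one
  bot : e A.bot = B.bot
  neg : ∀ x, e (A.neg x) = B.neg (e x)
  add : ∀ x y, e (A.add x y) = B.add (e x) (e y)
  mul : ∀ x y, e (A.mul x y) = B.mul (e x) (e y)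
  div : ∀ x y, e (A.div x y) = B.div (e x) (e y)

theorem IsHom.eval {A B : CDAlg} {e : A.carrier → B.carrier} (h : IsHom A B e)
    (v : ℕ → A.carrier) (t : Term) : e (t.eval A v) = t.eval B (fun n => e (v n)) := by
  induction t with
  | var n => rfl
  | zero => exact h.zero
  | one => exact h.one
  | bot => exact h.bot
  | neg t ih => simp only [Term.eval, h.neg, ih]
  | add s t ihs iht => simp only [Term.eval, h.add, ihs, iht]
  | mul s t ihs iht => simp only [Term.eval, h.mul, ihs, iht]
  | div s t ihs iht => simp only [Term.eval, h.div, ihs, iht]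

theorem Sat_of_homs {A B : CDAlg} {e f : A.carrier → B.carrier} (he : IsHom A B e)
    (hf : IsHom A B f) (hinj : ∀ x y, e x = e y → f x = f y → x = y) {φ : CondEq}
    (hB : Sat B φ) : Sat A φ := by
  intro v hv
  apply hinj
  · rw [he.eval, he.eval]
    apply hB
    intro p hp
    rw [← he.eval, ← he.eval, hv p hp]
  · rw [hf.eval, hf.eval]
    apply hB
    intro p hp
    rw [← hf.eval, ← hf.eval, hv p hp]

/-- A unit-reflecting ring homomorphism induces a homomorphism of enlargements. -/
theorem isHom_map {R S : Type} [CommRing R] [CommRing S] (g : R →+* S)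
    (hg : ∀ x, IsUnit (g x) → IsUnit x) : IsHom (Enl R) (Enl S) (Option.map g) where
  zero := by simp [Enl]
  one := by simp [Enl]
  bot := rfl
  neg := by
    intro x
    rcases x with _ | x <;> simp [Enl]
  add := by
    intro x y
    rcases x with _ | x <;> rcases y with _ | y <;> simp [Enl, lift2]
  mul := by
    intro x y
    rcases x with _ | x <;> rcases y with _ | y <;> simp [Enl, lift2]
  div := by
    intro x y
    rcases x with _ | x
    · rcases y with _ | y <;> simp [Enl, lift2]
    · rcases y with _ | y
      · simp [Enl, lift2]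
      · simp only [Enl, lift2, cdiv, Option.map_some]
        by_cases hy : IsUnit y
        · have hgy : IsUnit (g y) := hy.map g
          rw [if_pos hy, if_pos hgy, Option.map_some, map_mul]
          congr 2
          apply hgy.mul_left_cancel
          rw [Ring.mul_inverse_cancel _ hgy, ← map_mul, Ring.mul_inverse_cancel _ hy, map_one]
        · have hgy : ¬ IsUnit (g y) := fun h => hy (hg y h)
          rw [if_neg hy, if_neg hgy, Option.map_none]

/-- The fibre product `{(a, b) : a ≡ b mod m}` of two copies of a local ring. -/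
def fib (D : Type) [CommRing D] [IsLocalRing D] : Subring (D × D) where
  carrier := {p | p.1 - p.2 ∈ IsLocalRing.maximalIdeal D}
  mul_mem' := by
    rintro ⟨a, b⟩ ⟨c, d⟩ h1 h2
    simp only [Set.mem_ofPred_eq, Prod.mk_mul_mk] at *
    have : a * c - b * d = (a - b) * c + b * (c - d) := by ring
    rw [this]
    exact Ideal.add_mem _ (Ideal.mul_mem_right _ _ h1) (Ideal.mul_mem_left _ _ h2)
  one_mem' := by simp
  add_mem' := by
    rintro ⟨a, b⟩ ⟨c, d⟩ h1 h2
    simp only [Set.mem_ofPred_eq, Prod.mk_add_mk] at *
    have : a + c - (b + d) = (a - b) + (c - d) := by ring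
    rw [this]
    exact Ideal.add_mem _ h1 h2
  zero_mem' := by simp
  neg_mem' := by
    rintro ⟨a, b⟩ h1
    simp only [Set.mem_ofPred_eq, Prod.neg_mk] at *
    have : -a - -b = -(a - b) := by ring
    rw [this]
    exact neg_mem h1

theorem mem_fib {D : Type} [CommRing D] [IsLocalRing D] (p : D × D) :
    p ∈ fib D ↔ p.1 - p.2 ∈ IsLocalRing.maximalIdeal D := Iff.rfl

theorem isUnit_iff_of_sub_mem {D : Type} [CommRing D] [IsLocalRing D] {a b : D}
    (h : a - b ∈ IsLocalRing.maximalIdeal D) : IsUnit a ↔ IsUnit b := by
  constructor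
  · intro ha
    by_contra hb
    have hb' : b ∈ IsLocalRing.maximalIdeal D := (IsLocalRing.mem_maximalIdeal b).2 hb
    have : a ∈ IsLocalRing.maximalIdeal D := by
      have := Ideal.add_mem _ h hb'
      simpa using this
    exact (IsLocalRing.mem_maximalIdeal a).1 this ha
  · intro hb
    by_contra ha
    have ha' : a ∈ IsLocalRing.maximalIdeal D := (IsLocalRing.mem_maximalIdeal a).2 ha
    have : b ∈ IsLocalRing.maximalIdeal D := by
      have := Ideal.sub_mem _ ha' h
      simpa using this
    exact (IsLocalRing.mem_maximalIdeal b).1 this hb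

theorem isUnit_of_units {D : Type} [CommRing D] [IsLocalRing D] (x : fib D)
    (h1 : IsUnit x.1.1) (h2 : IsUnit x.1.2) : IsUnit x := by
  obtain ⟨⟨a, b⟩, hab⟩ := x
  simp only at h1 h2
  obtain ⟨u, rfl⟩ := h1
  obtain ⟨w, rfl⟩ := h2
  have hmem : ((↑u⁻¹ : D), (↑w⁻¹ : D)) ∈ fib D := by
    change (↑u⁻¹ : D) - (↑w⁻¹ : D) ∈ IsLocalRing.maximalIdeal D
    have hab' : (u : D) - (w : D) ∈ IsLocalRing.maximalIdeal D := hab
    have : (↑u⁻¹ : D) - (↑w⁻¹ : D) = -(↑u⁻¹ * ↑w⁻¹) * ((u : D) - (w : D)) := by
      have e1 : (↑u⁻¹ : D) * (u : D) = 1 := Units.inv_mul u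
      have e2 : (↑w⁻¹ : D) * (w : D) = 1 := Units.inv_mul w
      calc (↑u⁻¹ : D) - (↑w⁻¹ : D)
          = ↑u⁻¹ * (↑w⁻¹ * (w : D)) - ↑w⁻¹ * (↑u⁻¹ * (u : D)) := by rw [e1, e2]; ring
        _ = _ := by ring
    rw [this]
    exact Ideal.mul_mem_left _ _ hab'
  refine IsUnit.of_mul_eq_one ⟨_, hmem⟩ ?_
  apply Subtype.ext
  apply Prod.ext
  · simp
  · simp

/-- First and second projection. -/
def pr1 (D : Type) [CommRing D] [IsLocalRing D] : fib D →+* D :=
  (RingHom.fst D D).comp (fib D).subtype

def pr2 (D : Type) [CommRing D] [IsLocalRing D] : fib D →+* D :=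
  (RingHom.snd D D).comp (fib D).subtype

theorem pr1_reflect {D : Type} [CommRing D] [IsLocalRing D] (x : fib D)
    (h : IsUnit (pr1 D x)) : IsUnit x :=
  isUnit_of_units x h ((isUnit_iff_of_sub_mem x.2).1 h)

theorem pr2_reflect {D : Type} [CommRing D] [IsLocalRing D] (x : fib D)
    (h : IsUnit (pr2 D x)) : IsUnit x :=
  isUnit_of_units x ((isUnit_iff_of_sub_mem x.2).2 h) h

theorem Iso_refl (A : CDAlg) : Iso A A :=
  ⟨Equiv.refl _, rfl, rfl, rfl, fun _ => rfl, fun _ _ => rfl, fun _ _ => rfl, fun _ _ => rfl⟩

theorem eq_zero_or_of_IsCID {R : Type} [CommRing R] (h : IsCID (Enl R)) (x y : R)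
    (hxy : x * y = 0) : x = 0 ∨ y = 0 := by
  obtain ⟨D, _, hD, e, h0, -, hb, -, -, hm, -⟩ := h
  have hsome : ∀ x : R, ∃ d : D, e (some x) = some d := by
    intro x
    rcases hx : e (some x) with _ | d
    · exfalso
      have h1 : e (Enl R).bot = e (some x) := by rw [hb, hx]; rfl
      have := e.injective h1
      exact absurd (this.symm : (some x : Option R) = none) (Option.some_ne_none x)
    · exact ⟨d, rfl⟩
  obtain ⟨a, ha⟩ := hsome x
  obtain ⟨b, hb'⟩ := hsome y
  have h1 := hm (some x) (some y)
  have h2 : (Enl R).mul (some x) (some y) = (Enl R).zero := by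
    change some (x * y) = some 0
    rw [hxy]
  rw [h2, h0, ha, hb'] at h1
  have h3 : a * b = 0 := by
    have : (some (0 : D)) = some (a * b) := h1
    exact (Option.some.inj this).symm
  rcases mul_eq_zero.1 h3 with h4 | h4
  · left
    have : e (some x) = e (Enl R).zero := by rw [ha, h0, h4]; rfl
    exact Option.some.inj (e.injective this)
  · right
    have : e (some y) = e (Enl R).zero := by rw [hb', h0, h4]; rfl
    exact Option.some.inj (e.injective this)

/-- For every set `T` of conditional equations valid in all integral domains with common division,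
some commutative ring with common division satisfies `T` but is not (isomorphic to) an integral
domain with common division. -/
theorem result : ∀ T : Set CondEq, (∀ φ ∈ T, ∀ A : CDAlg, IsCID A → Sat A φ) →
    ∃ A : CDAlg, IsCR A ∧ (∀ φ ∈ T, Sat A φ) ∧ ¬ IsCID A := by
  intro T hT
  let D : Type := PowerSeries (ZMod 2)
  refine ⟨Enl (fib D), ⟨fib D, inferInstance, Iso_refl _⟩, fun φ hφ => ?_, fun h => ?_⟩
  · refine Sat_of_homs (isHom_map (pr1 D) pr1_reflect) (isHom_map (pr2 D) pr2_reflect) ?_
      (hT φ hφ (Enl D) ⟨D, inferInstance, inferInstance, Iso_refl _⟩)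
    intro x y h1 h2
    rcases x with _ | x <;> rcases y with _ | y
    · rfl
    · simp at h1
    · simp at h1
    · have e1 : x.1.1 = y.1.1 := Option.some.inj h1
      have e2 : x.1.2 = y.1.2 := Option.some.inj h2
      congr 1
      exact Subtype.ext (Prod.ext e1 e2)
  · have hX : (PowerSeries.X : D) ∈ IsLocalRing.maximalIdeal D := by
      rw [IsLocalRing.mem_maximalIdeal, mem_nonunits_iff]
      intro hu
      have := PowerSeries.isUnit_iff_constantCoeff.1 hu
      simp at this
    have hX0 : (PowerSeries.X : D) ≠ 0 := PowerSeries.X_ne_zero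
    have m1 : ((PowerSeries.X : D), (0 : D)) ∈ fib D := by
      rw [mem_fib, sub_zero]; exact hX
    have m2 : ((0 : D), (PowerSeries.X : D)) ∈ fib D := by
      rw [mem_fib, zero_sub]; exact neg_mem hX
    have := eq_zero_or_of_IsCID h ⟨_, m1⟩ ⟨_, m2⟩ (by
      apply Subtype.ext
      apply Prod.ext
      · simp
      · simp)
    rcases this with h | h
    · exact hX0 (congrArg Prod.fst (congrArg Subtype.val h))
    · exact hX0 (congrArg Prod.snd (congrArg Subtype.val h))

end Pool.Agent.Results.MP_faa006_lc.NotDefinable
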